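import Pool.Agent.helper55.GL.Spec

set_option autoImplicit false

namespace Pool.Agent.GL

open SimpleGraph

theorem RST_cp (V : Type) (H : SimpleGraph V) (c : V → Bool) (S : Set V) (n : ℕ) (hn : 0 < n)
    (B : Finset (Fin n × Fin n)) :
    Cp (H.induce S) (fun a => c a) Set.univ B ↔ Cp H c S B := by
  classical
  constructor
  · rintro ⟨φ, h1, h2⟩
    refine ⟨fun a => if h : a ∈ S then φ ⟨a, h⟩ else ⟨0, hn⟩, ?_, ?_⟩
    · intro a ha b hb hab h
      simp only [dif_pos ha, dif_pos hb] at h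
      have := h1 ⟨a, ha⟩ (Set.mem_univ _) ⟨b, hb⟩ (Set.mem_univ _) hab h
      exact congrArg Subtype.val this
    · intro a ha b hb hab hca hcb
      simp only [dif_pos ha, dif_pos hb]
      exact h2 ⟨a, ha⟩ (Set.mem_univ _) ⟨b, hb⟩ (Set.mem_univ _) hab hca hcb
  · rintro ⟨φ, h1, h2⟩
    refine ⟨fun a => φ a, ?_, ?_⟩
    · intro a _ b _ hab h
      exact Subtype.ext (h1 a a.2 b b.2 hab h)
    · intro a _ b _ hab hca hcb
      exact h2 a a.2 b b.2 hab hca hcb

open Classical in
theorem RST : RST_stmt := by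
  intro V H c S n hn
  unfold exs
  congr 1
  ext B
  rw [Finset.mem_filter, Finset.mem_filter, RST_cp V H c S n hn B]

end Pool.Agent.GL
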